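import Mathlib
import Pool.Agent.N399.UP.Main
import Pool.Agent.PageNum.Lower

/-!
# The union page number of `K_n` is `n / 3 + O(log n)` (MP_556f19_co)

Upper bound.  For `n = 216 S` the edges of circular length not divisible by six are covered, up to a
bounded number of exceptional lengths, by the translates of `10 S` triangulated hexagons on `Z_n`
whose six vertices lie in distinct residue classes modulo six; the translates by one residue class
modulo six are vertex-disjoint, so each hexagon costs six union pages (`60 S = 5 n / 18` in total).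
The edges of length divisible by six form six vertex-disjoint copies of `K_{n/6}`, which are treated
recursively.  The lower bound is the bound for the local page number.
-/

set_option autoImplicit false

namespace Pool.Agent.Results.MP_556f19_co.UnionPages

open Filter Topology

/-- With respect to the vertex order `o`, the edges `uv` and `xy` cross in the pattern
`u < x < v < y`. (Quantified over all ordered pairs of edges this covers both patterns.) -/
def Cross {V : Type} (o : LinearOrder V) (u v x y : V) : Prop :=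
  o.lt u x ∧ o.lt x v ∧ o.lt v y

/-- A page: a set of pairwise non-crossing edges. -/
def IsPage {V : Type} (o : LinearOrder V) (P : Set (Sym2 V)) : Prop :=
  ∀ u v x y, s(u, v) ∈ P → s(x, y) ∈ P → ¬ Cross o u v x y

/-- A union page: a set of edges `U` with a partition into pages `{e ∈ U | part e = i}` such that
every vertex is incident to edges of at most one of these pages. -/
def IsUnionPage {V : Type} (o : LinearOrder V) (U : Set (Sym2 V)) : Prop :=
  ∃ part : Sym2 V → ℕ, (∀ i, IsPage o {e | e ∈ U ∧ part e = i}) ∧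
    ∀ v, ∀ e ∈ U, ∀ f ∈ U, v ∈ e → v ∈ f → part e = part f

/-- `G` has a `k`-union book embedding: a vertex order and a partition of the edge set into `k`
union pages (the edge `e` is on the union page `page e < k`). -/
def HasUnionBook {V : Type} (G : SimpleGraph V) (k : ℕ) : Prop :=
  ∃ (o : LinearOrder V) (page : Sym2 V → ℕ), (∀ e ∈ G.edgeSet, page e < k) ∧
    ∀ i, IsUnionPage o {e | e ∈ G.edgeSet ∧ page e = i}

/-- The union page number. -/
noncomputable def unionPageNumber {V : Type} (G : SimpleGraph V) : ℕ :=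
  sInf {k | HasUnionBook G k}

/-- A union book embedding gives a local one. -/
theorem localBook {V : Type} {G : SimpleGraph V} {k : ℕ} (h : HasUnionBook G k) :
    Pool.Agent.PageNum.LocalBook G k := by
  classical
  obtain ⟨o, page, h1, h2⟩ := h
  choose part h3 h4 using h2
  refine ⟨o, fun e => Nat.pair (page e) (part (page e) e), ?_, ?_⟩
  · intro u v x y huv hxy hp hc
    rw [Nat.pair_eq_pair] at hp
    obtain ⟨e1, e2⟩ := hp
    refine h3 (page s(u, v)) (part (page s(u, v)) s(u, v)) u v x y ?_ ?_ hc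
    · exact ⟨⟨huv, rfl⟩, rfl⟩
    · refine ⟨⟨hxy, e1.symm⟩, ?_⟩
      rw [e2, e1]
  · intro v
    -- a vertex meets at most one part of every union page
    let q : ℕ → ℕ := fun i => if h : ∃ w, G.Adj v w ∧ page s(v, w) = i then
      Nat.pair i (part i s(v, h.choose)) else 0
    have hsub : {p | ∃ w, G.Adj v w ∧ Nat.pair (page s(v, w)) (part (page s(v, w)) s(v, w)) = p} ⊆
        q '' ((Finset.range k : Finset ℕ) : Set ℕ) := by
      rintro p ⟨w, hw, rfl⟩
      refine ⟨page s(v, w), ?_, ?_⟩
      · rw [Finset.mem_coe, Finset.mem_range]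
        exact h1 _ hw
      · have hex : ∃ w', G.Adj v w' ∧ page s(v, w') = page s(v, w) := ⟨w, hw, rfl⟩
        simp only [q, dif_pos hex]
        rw [Nat.pair_eq_pair]
        refine ⟨rfl, ?_⟩
        exact h4 (page s(v, w)) v s(v, hex.choose) ⟨hex.choose_spec.1, hex.choose_spec.2⟩ s(v, w)
          ⟨hw, rfl⟩ (Sym2.mem_mk_left _ _) (Sym2.mem_mk_left _ _)
    refine (Set.encard_le_encard hsub).trans ((Set.encard_image_le _ _).trans ?_)
    rw [Set.encard_coe_eq_coe_finsetCard, Finset.card_range]

/-- Transfer of the upper bound. -/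
theorem hasUnionBook {n k : ℕ} (h : Pool.Agent.N399.UP.UB n k fun _ _ => True) :
    HasUnionBook (⊤ : SimpleGraph (Fin n)) k := by
  classical
  obtain ⟨pg, sb, h1, h2, h3⟩ := h
  have hs : ∀ f : ℕ → ℕ → ℕ, ∀ u v : Fin n,
      f (min u v : Fin n) (max u v : Fin n) = f (min v u : Fin n) (max v u : Fin n) := by
    intro f u v
    rw [min_comm, max_comm]
  let P : Sym2 (Fin n) → ℕ := Sym2.lift ⟨fun u v => pg (min u v : Fin n) (max u v : Fin n), hs pg⟩
  let Q : Sym2 (Fin n) → ℕ := Sym2.lift ⟨fun u v => sb (min u v : Fin n) (max u v : Fin n), hs sb⟩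
  have hP : ∀ u v : Fin n, u < v → P s(u, v) = pg u v := by
    intro u v huv
    simp only [P, Sym2.lift_mk]
    rw [min_eq_left huv.le, max_eq_right huv.le]
  have hQ : ∀ u v : Fin n, u < v → Q s(u, v) = sb u v := by
    intro u v huv
    simp only [Q, Sym2.lift_mk]
    rw [min_eq_left huv.le, max_eq_right huv.le]
  -- every edge is of the form `s(a, b)` with `a < b`
  have hform : ∀ e : Sym2 (Fin n), e ∈ (⊤ : SimpleGraph (Fin n)).edgeSet →
      ∃ a b : Fin n, a < b ∧ e = s(a, b) := by
    intro e
    induction e using Sym2.ind with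
    | _ u v =>
      intro he
      rw [SimpleGraph.mem_edgeSet, SimpleGraph.top_adj] at he
      rcases lt_or_gt_of_ne he with h | h
      · exact ⟨u, v, h, rfl⟩
      · exact ⟨v, u, h, Sym2.eq_swap⟩
  refine ⟨inferInstance, P, ?_, ?_⟩
  · intro e he
    obtain ⟨a, b, hab, rfl⟩ := hform e he
    rw [hP a b hab]
    exact h1 a b hab b.2 trivial
  · intro i
    refine ⟨Q, ?_, ?_⟩
    · rintro j u v x y ⟨⟨_, p1⟩, q1⟩ ⟨⟨_, p2⟩, q2⟩ ⟨c1, c2, c3⟩
      have c1' : u < x := c1
      have c2' : x < v := c2
      have c3' : v < y := c3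
      rw [hP u v (c1'.trans c2')] at p1
      rw [hP x y (c2'.trans c3')] at p2
      rw [hQ u v (c1'.trans c2')] at q1
      rw [hQ x y (c2'.trans c3')] at q2
      exact h2 u v x y c1' c2' c3' y.2 trivial trivial (p1.trans p2.symm) (q1.trans q2.symm)
    · rintro v e ⟨he, p1⟩ f ⟨hf, p2⟩ hve hvf
      obtain ⟨a, b, hab, rfl⟩ := hform e he
      obtain ⟨c, d, hcd, rfl⟩ := hform f hf
      rw [hP a b hab] at p1
      rw [hP c d hcd] at p2
      rw [hQ a b hab, hQ c d hcd]
      refine h3 a b c d hab b.2 hcd d.2 trivial trivial (p1.trans p2.symm) ?_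
      rcases Sym2.mem_iff.1 hve with rfl | rfl <;> rcases Sym2.mem_iff.1 hvf with h | h <;>
        subst h <;> simp

/-- **The union page number of the complete graph.**  For all `n ≥ 2`,
`n / 3 ≤ pn_u(K_n) ≤ n / 3 + 9600 log n`; hence `pn_u(K_n) / n` tends to `1 / 3`. -/
theorem result :
    (∀ n : ℕ, 2 ≤ n →
      (n : ℝ) / 3 ≤ (unionPageNumber (⊤ : SimpleGraph (Fin n)) : ℝ) ∧
      (unionPageNumber (⊤ : SimpleGraph (Fin n)) : ℝ) ≤ (n : ℝ) / 3 + 9600 * Real.log n ∧
      HasUnionBook (⊤ : SimpleGraph (Fin n)) (unionPageNumber (⊤ : SimpleGraph (Fin n)))) ∧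
    Tendsto (fun n : ℕ => (unionPageNumber (⊤ : SimpleGraph (Fin n)) : ℝ) / n) atTop (𝓝 (1 / 3)) := by
  have main : ∀ n : ℕ, 2 ≤ n →
      (n : ℝ) / 3 ≤ (unionPageNumber (⊤ : SimpleGraph (Fin n)) : ℝ) ∧
      (unionPageNumber (⊤ : SimpleGraph (Fin n)) : ℝ) ≤ (n : ℝ) / 3 + 9600 * Real.log n ∧
      HasUnionBook (⊤ : SimpleGraph (Fin n)) (unionPageNumber (⊤ : SimpleGraph (Fin n))) := by
    intro n hn
    have hub := hasUnionBook (Pool.Agent.N399.UP.ub_all n)
    have hmem : HasUnionBook (⊤ : SimpleGraph (Fin n)) (unionPageNumber (⊤ : SimpleGraph (Fin n))) :=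
      Nat.sInf_mem (s := {k | HasUnionBook (⊤ : SimpleGraph (Fin n)) k}) ⟨_, hub⟩
    have hle : unionPageNumber (⊤ : SimpleGraph (Fin n)) ≤ n / 3 + 3200 * (Nat.log 2 n + 1) :=
      Nat.sInf_le hub
    have hge := Pool.Agent.PageNum.LocalBook.le (Fintype.card_fin n) hn (localBook hmem)
    refine ⟨?_, ?_, hmem⟩
    · have : (n : ℝ) ≤ ((3 * unionPageNumber (⊤ : SimpleGraph (Fin n)) : ℕ) : ℝ) := by
        exact_mod_cast hge
      push_cast at this
      linarith
    · have h1 : (unionPageNumber (⊤ : SimpleGraph (Fin n)) : ℝ) ≤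
          ((n / 3 + 3200 * (Nat.log 2 n + 1) : ℕ) : ℝ) := by exact_mod_cast hle
      have h2 : ((n / 3 : ℕ) : ℝ) ≤ (n : ℝ) / 3 := by exact_mod_cast Nat.cast_div_le
      have hn0 : (0 : ℝ) < n := by positivity
      have hlog2 : (0.6931471803 : ℝ) < Real.log 2 := Real.log_two_gt_d9
      have h3 : (Nat.log 2 n : ℝ) * Real.log 2 ≤ Real.log n := by
        have h4 : (2 : ℝ) ^ Nat.log 2 n ≤ n := by
          exact_mod_cast Nat.pow_log_le_self 2 (by omega)
        have h5 := Real.log_le_log (by positivity) h4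
        rwa [Real.log_pow] at h5
      have h6 : Real.log 2 ≤ Real.log n :=
        Real.log_le_log (by norm_num) (by exact_mod_cast hn)
      push_cast at h1
      have h7 : (Nat.log 2 n : ℝ) * 0.6931471803 ≤ Real.log n := by
        refine le_trans (mul_le_mul_of_nonneg_left hlog2.le (by positivity)) h3
      have h8 : (0 : ℝ) ≤ (Nat.log 2 n : ℝ) := by positivity
      nlinarith
  refine ⟨main, ?_⟩
  have hlog : Tendsto (fun n : ℕ => Real.log n / (n : ℝ)) atTop (𝓝 0) := by
    have h := (Real.isLittleO_log_id_atTop).tendsto_div_nhds_zero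
    exact h.comp tendsto_natCast_atTop_atTop
  have hup : Tendsto (fun n : ℕ => (1 : ℝ) / 3 + 9600 * (Real.log n / (n : ℝ))) atTop
      (𝓝 (1 / 3)) := by
    have := (hlog.const_mul 9600).const_add ((1 : ℝ) / 3)
    simpa using this
  refine tendsto_of_tendsto_of_tendsto_of_le_of_le' tendsto_const_nhds hup ?_ ?_
  · filter_upwards [eventually_ge_atTop 2] with n hn
    have hn0 : (0 : ℝ) < n := by
      have : (2 : ℝ) ≤ n := by exact_mod_cast hn
      linarith
    rw [le_div_iff₀ hn0]
    have := (main n hn).1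
    linarith
  · filter_upwards [eventually_ge_atTop 2] with n hn
    have hn0 : (0 : ℝ) < n := by
      have : (2 : ℝ) ≤ n := by exact_mod_cast hn
      linarith
    rw [div_le_iff₀ hn0]
    have h1 := (main n hn).2.1
    have h2 : (1 / 3 + 9600 * (Real.log n / (n : ℝ))) * n = n / 3 + 9600 * Real.log n := by
      field_simp
    rw [h2]
    exact h1

end Pool.Agent.Results.MP_556f19_co.UnionPages
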